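import Pool.Agent.K3h11.Erde.P12

/-!
# Transport of the products of two and three cycles (brick KT1)
-/

set_option autoImplicit false

namespace Pool.Agent.K3h11.Erde

open Pool.Agent.K3h88.Erde

theorem decN_one {V : Type} {P : Set (Sym2 V) → Prop} {F : Set (Sym2 V)} (h : P F) :
    DecN P 1 F := by
  refine ⟨fun _ => F, fun _ => h, fun i j hij => (hij (Subsingleton.elim i j)).elim, ?_⟩
  rw [Set.iUnion_const]

theorem t0b (hX : StmT0X) (hY : StmT0Y) (hZ : StmT0Z) (hD : StmT0D) : StmT0b := by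
  intro A B hB hBA hA hco
  obtain ⟨h1, h2, h3, h4⟩ := hD A B hB hBA hA
  rw [h1]
  exact p1d _ _ 2 1 _ _ (Set.disjoint_union_left.2 ⟨h3, h4⟩)
    (p1d _ _ 1 1 _ _ h2 (decN_one (hX A B hB hBA hA hco)) (decN_one (hY A B hB hBA hA hco)))
    (decN_one (hZ A B hB hBA hA hco))

theorem coprime_four (x y : ℕ) (hy : 1 ≤ y) : Nat.Coprime (4 ^ y - 1) (4 ^ x) := by
  have h4 : (4 : ℕ) ^ x = 2 ^ (2 * x) := by rw [pow_mul]; norm_num
  rw [h4]
  apply Nat.Coprime.pow_right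
  rw [Nat.coprime_two_right]
  have h1 : (4 : ℕ) ^ y = 4 * 4 ^ (y - 1) := by
    rw [← pow_succ']
    congr 1
    omega
  have h2 : 0 < 4 ^ (y - 1) := by positivity
  rw [Nat.odd_iff]
  omega

theorem four_le (y : ℕ) (hy : 1 ≤ y) : 4 ≤ 4 ^ y := by
  calc 4 = 4 ^ 1 := by norm_num
    _ ≤ 4 ^ y := Nat.pow_le_pow_right (by norm_num) hy

theorem hc_param (h3 : StmP2c) {V : Type} [Fintype V] {n : ℕ} (hn : Fintype.card V = n)
    {F : Set (Sym2 V)} (hF : IsHC F) :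
    ∃ φ : ZMod n → V, Function.Bijective φ ∧ F = Sym2.map φ '' cyE n := by
  subst hn
  exact (h3 V F hF).2

theorem swap_boxE {V W : Type} (D : Set (Sym2 V)) (E : Set (Sym2 W)) :
    boxE D E = Sym2.map Prod.swap '' boxE E D := by
  ext e
  constructor
  · rintro (⟨x, x', y, h, rfl⟩ | ⟨x, y, y', h, rfl⟩)
    · exact ⟨s((y, x), (y, x')), Or.inr ⟨y, x, x', h, rfl⟩, rfl⟩
    · exact ⟨s((y, x), (y', x)), Or.inl ⟨y, y', x, h, rfl⟩, rfl⟩
  · rintro ⟨_, (⟨x, x', y, h, rfl⟩ | ⟨x, y, y', h, rfl⟩), rfl⟩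
    · exact Or.inr ⟨y, x, x', h, rfl⟩
    · exact Or.inl ⟨y, y', x, h, rfl⟩

theorem assoc_boxE {V W W' : Type} (D : Set (Sym2 V)) (C : Set (Sym2 W)) (C' : Set (Sym2 W')) :
    boxE D (boxE C C') = Sym2.map (Equiv.prodAssoc V W W') '' boxE (boxE D C) C' := by
  ext e
  constructor
  · rintro (⟨x, x', y, h, rfl⟩ | ⟨x, y, y', h, rfl⟩)
    · obtain ⟨y1, y2⟩ := y
      exact ⟨s(((x, y1), y2), ((x', y1), y2)),
        Or.inl ⟨(x, y1), (x', y1), y2, Or.inl ⟨x, x', y1, h, rfl⟩, rfl⟩, rfl⟩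
    · obtain ⟨y1, y2⟩ := y
      obtain ⟨y1', y2'⟩ := y'
      rcases h with ⟨a, a', b, h, he⟩ | ⟨a, b, b', h, he⟩
      · have : s((x, (y1, y2)), (x, (y1', y2'))) = s((x, (a, b)), (x, (a', b))) := by
          have := congrArg (Sym2.map (fun p : W × W' => (x, p))) he
          simpa using this
        rw [this]
        exact ⟨s(((x, a), b), ((x, a'), b)),
          Or.inl ⟨(x, a), (x, a'), b, Or.inr ⟨x, a, a', h, rfl⟩, rfl⟩, rfl⟩
      · have : s((x, (y1, y2)), (x, (y1', y2'))) = s((x, (a, b)), (x, (a, b'))) := by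
          have := congrArg (Sym2.map (fun p : W × W' => (x, p))) he
          simpa using this
        rw [this]
        exact ⟨s(((x, a), b), ((x, a), b')),
          Or.inr ⟨(x, a), b, b', h, rfl⟩, rfl⟩
  · rintro ⟨_, (⟨x, x', y, h, rfl⟩ | ⟨x, y, y', h, rfl⟩), rfl⟩
    · obtain ⟨x1, x2⟩ := x
      obtain ⟨x1', x2'⟩ := x'
      rcases h with ⟨a, a', b, h, he⟩ | ⟨a, b, b', h, he⟩
      · have : s((x1, (x2, y)), (x1', (x2', y))) = s((a, (b, y)), (a', (b, y))) := by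
          have := congrArg (Sym2.map (fun p : V × W => (p.1, (p.2, y)))) he
          simpa using this
        show s((x1, (x2, y)), (x1', (x2', y))) ∈ _
        rw [this]
        exact Or.inl ⟨a, a', (b, y), h, rfl⟩
      · have : s((x1, (x2, y)), (x1', (x2', y))) = s((a, (b, y)), (a, (b', y))) := by
          have := congrArg (Sym2.map (fun p : V × W => (p.1, (p.2, y)))) he
          simpa using this
        show s((x1, (x2, y)), (x1', (x2', y))) ∈ _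
        rw [this]
        exact Or.inr ⟨a, (b, y), (b', y), Or.inl ⟨b, b', y, h, rfl⟩, rfl⟩
    · obtain ⟨x1, x2⟩ := x
      exact Or.inr ⟨x1, (x2, y), (x2, y'), Or.inr ⟨x2, y, y', h, rfl⟩, rfl⟩

theorem k1_aux (h1 : StmP1a) (h2 : StmP1c) (h3 : StmP2c) (h4 : StmP3c) (h5 : StmK0)
    (V W : Type) [Fintype V] [Fintype W] (x y : ℕ) (D : Set (Sym2 V))
    (E : Set (Sym2 W)) (hy : 1 ≤ y) (hyx : y ≤ x) (hV : Fintype.card V = 4 ^ x)
    (hW : Fintype.card W = 4 ^ y) (hD : IsHC D) (hE : IsHC E) :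
    DecN IsHC 2 (boxE D E) := by
  obtain ⟨φ, hφ, rfl⟩ := hc_param h3 hV hD
  obtain ⟨ψ, hψ, rfl⟩ := hc_param h3 hW hE
  rw [h4 _ _ _ _ φ ψ _ _ hφ hψ]
  have hb : Function.Bijective (Prod.map φ ψ) := hφ.prodMap hψ
  exact h1 _ _ IsHC IsHC _ 2 _ hb.1
    (h5 _ _ (le_trans (by norm_num) (four_le y hy)) (pow_dvd_pow 4 hyx) (by positivity)
      (coprime_four x y hy)) (fun F hF => h2 _ _ _ F hb hF)

theorem k1 (h1 : StmP1a) (h2 : StmP1c) (h3 : StmP2c) (h4 : StmP3c) (h5 : StmK0) : StmK1 := by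
  intro V W _ _ x y D E hx hy hV hW hD hE
  rcases Nat.le_total y x with h | h
  · exact k1_aux h1 h2 h3 h4 h5 V W x y D E hy h hV hW hD hE
  · rw [swap_boxE]
    exact h1 _ _ IsHC IsHC Prod.swap 2 _ Prod.swap_injective
      (k1_aux h1 h2 h3 h4 h5 W V y x E D hx h hW hV hE hD)
      (fun F hF => h2 _ _ _ F Prod.swap_bijective hF)

theorem t1 (h1 : StmP1a) (h2 : StmP1c) (h3 : StmP2c) (h4 : StmP3c) (hA : StmT0a)
    (hB : StmT0b) : StmT1 := by
  intro V W W' _ _ _ x y D C C' hy hyx hV hW hW' hD hC hC'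
  obtain ⟨φ, hφ, rfl⟩ := hc_param h3 hV hD
  obtain ⟨ψ, hψ, rfl⟩ := hc_param h3 hW hC
  obtain ⟨ψ', hψ', rfl⟩ := hc_param h3 hW' hC'
  have h4y := four_le y hy
  obtain ⟨χ, hχ, hbox, hdis⟩ := hA (4 ^ x) (4 ^ y) (by omega) (pow_dvd_pow 4 hyx)
    (by positivity) (coprime_four x y hy)
  rw [assoc_boxE, h4 _ _ _ _ φ ψ _ _ hφ hψ, hbox, ← Set.image_comp, ← Sym2.map_comp]
  have hb : Function.Bijective (Prod.map φ ψ ∘ χ) := (hφ.prodMap hψ).comp hχ
  rw [h4 _ _ _ _ (Prod.map φ ψ ∘ χ) ψ' _ _ hb hψ', ← Set.image_comp, ← Sym2.map_comp]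
  have hb' : Function.Bijective (⇑(Equiv.prodAssoc V W W') ∘ Prod.map (Prod.map φ ψ ∘ χ) ψ') :=
    (Equiv.bijective _).comp (hb.prodMap hψ')
  exact h1 _ _ IsHC IsHC _ 3 _ hb'.1
    (hB _ _ h4y (pow_dvd_pow 4 hyx) (by positivity) (coprime_four x y hy))
    (fun F hF => h2 _ _ _ F hb' hF)

end Pool.Agent.K3h11.Erde
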