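import Pool.Agent.K3h88.Erde.Stm

/-!
# Plumbing for the decompositions (bricks P1, P2)
-/

set_option autoImplicit false

namespace Pool.Agent.K3h11.Erde

open Pool.Agent.K3h88.Erde

theorem map_pE {V W : Type} (φ : V → W) (f : ℕ → V) (k : ℕ) :
    Sym2.map φ '' pE f k = pE (fun j => φ (f j)) k := by
  ext e
  constructor
  · rintro ⟨_, ⟨j, hj, rfl⟩, rfl⟩
    exact ⟨j, hj, by simp⟩
  · rintro ⟨j, hj, rfl⟩
    exact ⟨s(f j, f (j + 1)), ⟨j, hj, rfl⟩, by simp⟩

theorem p1a : StmP1a := by
  intro V W P P' φ r E hφ ⟨F, hP, hd, hE⟩ hPP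
  refine ⟨fun i => Sym2.map φ '' F i, fun i => hPP _ (hP i), fun i j hij => ?_, ?_⟩
  · exact (Set.disjoint_image_iff (Sym2.map.injective hφ)).2 (hd i j hij)
  · rw [hE, Set.image_iUnion]

theorem p1b : StmP1b := by
  intro V W φ k F hφ ⟨f, hf, hF⟩
  refine ⟨fun j => φ (f j), ?_, ?_⟩
  · intro a ha b hb h
    exact hf ha hb (hφ h)
  · rw [hF, map_pE]

theorem p1c : StmP1c := by
  intro V W φ F hφ ⟨M, c, ⟨h3, hM, hinj⟩, hs, hF⟩
  refine ⟨M, fun j => φ (c j), ⟨h3, by simp [hM], ?_⟩, ?_, ?_⟩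
  · intro a ha b hb h
    exact hinj ha hb (hφ.1 h)
  · intro w
    obtain ⟨v, rfl⟩ := hφ.2 w
    obtain ⟨j, hj, rfl⟩ := hs v
    exact ⟨j, hj, rfl⟩
  · rw [hF, map_pE]

theorem p1d : StmP1d := by
  intro V P r t D E hDE ⟨F, hP, hd, hF⟩ ⟨G, hP', hd', hG⟩
  have hFD : ∀ i, F i ⊆ D := fun i => hF ▸ Set.subset_iUnion F i
  have hGE : ∀ i, G i ⊆ E := fun i => hG ▸ Set.subset_iUnion G i
  refine ⟨Fin.addCases F G, ?_, ?_, ?_⟩
  · intro i
    refine Fin.addCases (fun i => ?_) (fun i => ?_) i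
    · simpa using hP i
    · simpa using hP' i
  · intro i j
    refine Fin.addCases (fun i => ?_) (fun i => ?_) i
    · refine Fin.addCases (fun j => ?_) (fun j => ?_) j
      · intro h
        simp only [Fin.addCases_left]
        exact hd i j (fun h' => h (by rw [h']))
      · intro _
        simp only [Fin.addCases_left, Fin.addCases_right]
        exact hDE.mono (hFD i) (hGE j)
    · refine Fin.addCases (fun j => ?_) (fun j => ?_) j
      · intro _
        simp only [Fin.addCases_left, Fin.addCases_right]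
        exact (hDE.mono (hFD j) (hGE i)).symm
      · intro h
        simp only [Fin.addCases_right]
        exact hd' i j (fun h' => h (by rw [h']))
  · ext e
    rw [hF, hG]
    simp only [Set.mem_union, Set.mem_iUnion]
    constructor
    · rintro (⟨i, hi⟩ | ⟨i, hi⟩)
      · exact ⟨Fin.castAdd t i, by simpa using hi⟩
      · exact ⟨Fin.natAdd r i, by simpa using hi⟩
    · rintro ⟨i, hi⟩
      revert hi
      refine Fin.addCases (fun i => ?_) (fun i => ?_) i
      · intro hi
        exact Or.inl ⟨i, by simpa using hi⟩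
      · intro hi
        exact Or.inr ⟨i, by simpa using hi⟩

theorem p1e : StmP1e := by
  intro V P P' r t E ⟨F, hP, hd, hF⟩ h
  choose G hG1 hG2 hG3 using fun i => h (F i) (hP i)
  have hsub : ∀ i j, G i j ⊆ F i := fun i j => by
    conv_rhs => rw [hG3 i]
    exact Set.subset_iUnion (G i) j
  refine ⟨fun k => G (finProdFinEquiv.symm k).1 (finProdFinEquiv.symm k).2, fun k => hG1 _ _,
    ?_, ?_⟩
  · intro k l hkl
    by_cases h1 : (finProdFinEquiv.symm k).1 = (finProdFinEquiv.symm l).1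
    · have h2 : (finProdFinEquiv.symm k).2 ≠ (finProdFinEquiv.symm l).2 := by
        intro h2
        exact hkl (finProdFinEquiv.symm.injective (Prod.ext h1 h2))
      show Disjoint (G _ _) (G _ _)
      rw [h1]
      exact hG2 _ _ _ h2
    · exact (hd _ _ h1).mono (hsub _ _) (hsub _ _)
  · rw [hF]
    ext e
    simp only [Set.mem_iUnion]
    constructor
    · rintro ⟨i, hi⟩
      rw [hG3 i, Set.mem_iUnion] at hi
      obtain ⟨j, hj⟩ := hi
      exact ⟨finProdFinEquiv (i, j), by simpa using hj⟩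
    · rintro ⟨k, hk⟩
      exact ⟨_, hsub _ _ hk⟩

theorem p1f : StmP1f := by
  intro V P r t E ⟨F, hP, hd, hF⟩
  refine ⟨⋃ i, F (Fin.castAdd t i), ⋃ i, F (Fin.natAdd r i), ?_, ?_,
    ⟨fun i => F (Fin.castAdd t i), fun i => hP _, ?_, rfl⟩,
    ⟨fun i => F (Fin.natAdd r i), fun i => hP _, ?_, rfl⟩⟩
  · rw [hF]
    ext e
    simp only [Set.mem_union, Set.mem_iUnion]
    constructor
    · rintro ⟨i, hi⟩
      revert hi
      refine Fin.addCases (fun i => ?_) (fun i => ?_) i
      · intro hi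
        exact Or.inl ⟨i, hi⟩
      · intro hi
        exact Or.inr ⟨i, hi⟩
    · rintro (⟨i, hi⟩ | ⟨i, hi⟩)
      · exact ⟨_, hi⟩
      · exact ⟨_, hi⟩
  · simp only [Set.disjoint_iUnion_left, Set.disjoint_iUnion_right]
    intro i j
    refine hd _ _ (fun h => ?_)
    have := congrArg Fin.val h
    simp only [Fin.val_castAdd, Fin.val_natAdd] at this
    omega
  · intro i j hij
    exact hd _ _ (fun h => hij (Fin.castAdd_injective _ _ h))
  · intro i j hij
    exact hd _ _ (fun h => hij (Fin.natAdd_injective _ _ h))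

/-- The edges of an injective sequence determine their places. -/
theorem path_edge {V : Type} {f : ℕ → V} {n : ℕ} (hf : Set.InjOn f (Set.Iic n)) {a b : ℕ}
    (ha : a < n) (hb : b < n) (h : s(f a, f (a + 1)) = s(f b, f (b + 1))) : a = b := by
  rw [Sym2.eq_iff] at h
  rcases h with ⟨h, _⟩ | ⟨h1, h2⟩
  · exact hf (Set.mem_Iic.2 (by omega)) (Set.mem_Iic.2 (by omega)) h
  · have e1 : a = b + 1 := hf (Set.mem_Iic.2 (by omega)) (Set.mem_Iic.2 (by omega)) h1
    have e2 : a + 1 = b := hf (Set.mem_Iic.2 (by omega)) (Set.mem_Iic.2 (by omega)) h2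
    omega

/-- The edges of a closed sequence determine their places. -/
theorem cyc_edge {V : Type} {c : ℕ → V} {M : ℕ} (hc : IsCyc c M) {a b : ℕ}
    (ha : a < M) (hb : b < M) (h : s(c a, c (a + 1)) = s(c b, c (b + 1))) : a = b := by
  obtain ⟨h3, hM, hinj⟩ := hc
  have key : ∀ x y : ℕ, x < M → y < M → c x = c (y + 1) → x = y + 1 ∨ (y + 1 = M ∧ x = 0) := by
    intro x y hx hy hxy
    by_cases hy1 : y + 1 = M
    · right
      refine ⟨hy1, ?_⟩
      rw [hy1, hM] at hxy
      exact hinj (Set.mem_Iio.2 hx) (Set.mem_Iio.2 (by omega)) hxy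
    · left
      exact hinj (Set.mem_Iio.2 hx) (Set.mem_Iio.2 (by omega)) hxy
  rw [Sym2.eq_iff] at h
  rcases h with ⟨h, _⟩ | ⟨h1, h2⟩
  · exact hinj (Set.mem_Iio.2 ha) (Set.mem_Iio.2 hb) h
  · have e1 := key a b ha hb h1
    have e2 := key b a hb ha h2.symm
    omega

theorem p2a : StmP2a := by
  intro V k c F hk ⟨f, hf, hF⟩
  refine ⟨fun i => pE (fun j => f (i.val * k + j)) k, fun i => ⟨_, ?_, rfl⟩, ?_, ?_⟩
  · intro a ha b hb h
    have hi : (i.val + 1) * k ≤ c * k := Nat.mul_le_mul_right k i.2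
    have hmul : c * k = k * c := Nat.mul_comm c k
    rw [Set.mem_Iic] at ha hb
    have h1 : i.val * k + a ≤ k * c := by
      rw [Nat.add_mul] at hi
      omega
    have h2 : i.val * k + b ≤ k * c := by
      rw [Nat.add_mul] at hi
      omega
    have := hf (Set.mem_Iic.2 h1) (Set.mem_Iic.2 h2) h
    omega
  · intro i i' hii
    rw [Set.disjoint_left]
    rintro e ⟨a, ha, rfl⟩ ⟨b, hb, h⟩
    have hi : (i.val + 1) * k ≤ c * k := Nat.mul_le_mul_right k i.2
    have hi' : (i'.val + 1) * k ≤ c * k := Nat.mul_le_mul_right k i'.2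
    have hmul : c * k = k * c := Nat.mul_comm c k
    have h1 : i.val * k + a < k * c := by
      rw [Nat.add_mul] at hi
      omega
    have h2 : i'.val * k + b < k * c := by
      rw [Nat.add_mul] at hi'
      omega
    have := path_edge hf h1 h2 h
    apply hii
    apply Fin.ext
    have e1 : (i.val * k + a) / k = i.val := by
      rw [Nat.mul_comm, Nat.mul_add_div (by omega), Nat.div_eq_of_lt ha, Nat.add_zero]
    have e2 : (i'.val * k + b) / k = i'.val := by
      rw [Nat.mul_comm, Nat.mul_add_div (by omega), Nat.div_eq_of_lt hb, Nat.add_zero]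
    rw [← e1, ← e2, this]
  · rw [hF]
    ext e
    simp only [Set.mem_iUnion]
    constructor
    · rintro ⟨j, hj, rfl⟩
      have hq : j / k < c := (Nat.div_lt_iff_lt_mul (by omega)).2 (by rw [Nat.mul_comm]; exact hj)
      refine ⟨⟨j / k, hq⟩, j % k, Nat.mod_lt _ (by omega), ?_⟩
      have : j / k * k + j % k = j := by
        rw [Nat.mul_comm]
        exact Nat.div_add_mod j k
      simp only [← Nat.add_assoc, this]
    · rintro ⟨i, j, hj, rfl⟩
      have hi : (i.val + 1) * k ≤ c * k := Nat.mul_le_mul_right k i.2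
      refine ⟨i.val * k + j, ?_, rfl⟩
      rw [Nat.add_mul] at hi
      have hmul : c * k = k * c := Nat.mul_comm c k
      omega

theorem card_of_hc {V : Type} [Fintype V] {c : ℕ → V} {M : ℕ} (hc : IsCyc c M)
    (hs : ∀ v, ∃ j, j < M ∧ c j = v) : Fintype.card V = M := by
  have hb : Function.Bijective (fun i : Fin M => c i.val) := by
    constructor
    · intro a b h
      exact Fin.ext (hc.2.2 (Set.mem_Iio.2 a.2) (Set.mem_Iio.2 b.2) h)
    · intro v
      obtain ⟨j, hj, rfl⟩ := hs v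
      exact ⟨⟨j, hj⟩, rfl⟩
  have := Fintype.card_of_bijective hb
  rw [Fintype.card_fin] at this
  exact this.symm

theorem p2b : StmP2b := by
  intro V _ k c' F hk hc' hcard ⟨M, c, hc, hs, hF⟩
  have hMk : M = k * c' := by rw [← card_of_hc hc hs, hcard]
  have hmul : c' * k = k * c' := Nat.mul_comm c' k
  refine ⟨fun i => pE (fun j => c (i.val * k + j)) k, fun i => ⟨_, ?_, rfl⟩, ?_, ?_⟩
  · intro a ha b hb h
    have hi : (i.val + 1) * k ≤ c' * k := Nat.mul_le_mul_right k i.2
    rw [Nat.add_mul] at hi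
    rw [Set.mem_Iic] at ha hb
    have h2k : 2 * k ≤ c' * k := Nat.mul_le_mul_right k hc'
    have h1 : i.val * k + a ≤ M := by omega
    have h2 : i.val * k + b ≤ M := by omega
    have key : ∀ x y : ℕ, x ≤ k → y ≤ k → i.val * k + x = M → i.val * k + y < M →
        c (i.val * k + x) = c (i.val * k + y) → False := by
      intro x y hx hy hxM hyM hxy
      rw [hxM, hc.2.1] at hxy
      have := hc.2.2 (Set.mem_Iio.2 (by omega)) (Set.mem_Iio.2 hyM) hxy
      omega
    rcases Nat.lt_or_ge (i.val * k + a) M with h3 | h3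
    · rcases Nat.lt_or_ge (i.val * k + b) M with h4 | h4
      · have := hc.2.2 (Set.mem_Iio.2 h3) (Set.mem_Iio.2 h4) h
        omega
      · exact (key b a hb ha (by omega) h3 h.symm).elim
    · rcases Nat.lt_or_ge (i.val * k + b) M with h4 | h4
      · exact (key a b ha hb (by omega) h4 h).elim
      · omega
  · intro i i' hii
    rw [Set.disjoint_left]
    rintro e ⟨a, ha, rfl⟩ ⟨b, hb, h⟩
    have hi : (i.val + 1) * k ≤ c' * k := Nat.mul_le_mul_right k i.2
    have hi' : (i'.val + 1) * k ≤ c' * k := Nat.mul_le_mul_right k i'.2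
    rw [Nat.add_mul] at hi hi'
    have h1 : i.val * k + a < M := by omega
    have h2 : i'.val * k + b < M := by omega
    have := cyc_edge hc h1 h2 h
    apply hii
    apply Fin.ext
    have e1 : (i.val * k + a) / k = i.val := by
      rw [Nat.mul_comm, Nat.mul_add_div (by omega), Nat.div_eq_of_lt ha, Nat.add_zero]
    have e2 : (i'.val * k + b) / k = i'.val := by
      rw [Nat.mul_comm, Nat.mul_add_div (by omega), Nat.div_eq_of_lt hb, Nat.add_zero]
    rw [← e1, ← e2, this]
  · rw [hF]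
    ext e
    simp only [Set.mem_iUnion]
    constructor
    · rintro ⟨j, hj, rfl⟩
      have hq : j / k < c' := (Nat.div_lt_iff_lt_mul (by omega)).2 (by omega)
      refine ⟨⟨j / k, hq⟩, j % k, Nat.mod_lt _ (by omega), ?_⟩
      have : j / k * k + j % k = j := by
        rw [Nat.mul_comm]
        exact Nat.div_add_mod j k
      simp only [← Nat.add_assoc, this]
    · rintro ⟨i, j, hj, rfl⟩
      have hi : (i.val + 1) * k ≤ c' * k := Nat.mul_le_mul_right k i.2
      refine ⟨i.val * k + j, ?_, rfl⟩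
      rw [Nat.add_mul] at hi
      omega

theorem p2c : StmP2c := by
  intro V _ F ⟨M, c, hc, hs, hF⟩
  have hcard := card_of_hc hc hs
  have h3 : 3 ≤ M := hc.1
  rw [hcard]
  refine ⟨h3, ?_⟩
  have : NeZero M := ⟨by omega⟩
  have hbij : Function.Bijective (fun u : ZMod M => c u.val) := by
    constructor
    · intro a b h
      exact ZMod.val_injective M
        (hc.2.2 (Set.mem_Iio.2 (ZMod.val_lt a)) (Set.mem_Iio.2 (ZMod.val_lt b)) h)
    · intro v
      obtain ⟨j, hj, rfl⟩ := hs v
      exact ⟨(j : ZMod M), by simp [ZMod.val_natCast, Nat.mod_eq_of_lt hj]⟩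
  have hstep : ∀ u : ZMod M, c (u + 1).val = c (u.val + 1) := by
    intro u
    have hu := ZMod.val_lt u
    have h1 : (u + 1).val = (u.val + 1) % M := by
      rw [ZMod.val_add, ZMod.val_one'' (by omega)]
    rw [h1]
    by_cases h : u.val + 1 = M
    · rw [h, Nat.mod_self, hc.2.1]
    · rw [Nat.mod_eq_of_lt (by omega)]
  refine ⟨fun u => c u.val, hbij, ?_⟩
  rw [hF]
  ext e
  constructor
  · rintro ⟨j, hj, rfl⟩
    refine ⟨s((j : ZMod M), (j : ZMod M) + 1), ⟨_, rfl⟩, ?_⟩
    have hv : ((j : ZMod M)).val = j := by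
      rw [ZMod.val_natCast, Nat.mod_eq_of_lt hj]
    simp only [Sym2.map_mk, hstep, hv]
  · rintro ⟨_, ⟨u, rfl⟩, rfl⟩
    refine ⟨u.val, ZMod.val_lt u, ?_⟩
    simp only [Sym2.map_mk, hstep]

end Pool.Agent.K3h11.Erde
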